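import Pool.Agent.H190R3.WeiWords

/-!
# The sums of exactly `n` elements of a set, as a functional
-/

set_option autoImplicit false

namespace Pool.Agent.Y579.HN

open Pool.Agent.H190R3.Wei

/-- one more element -/
def stp (b : Bool) (k : ℕ) (acc : List (ℕ × ℕ)) : List (ℕ × ℕ) :=
  bif b then acc ++ acc.map (fun p => (p.1 + 1, p.2 + k)) else acc

/-- the pairs (number of elements, sum) for the subsets of `{k < M | g k}` -/
def sums (g : ℕ → Bool) (M : ℕ) : List (ℕ × ℕ) :=
  (List.range M).foldl (fun acc k => stp (g k) k acc) [(0, 0)]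

/-- `m` is a sum of exactly `n` elements -/
def wv (n : ℕ) (g : ℕ → Bool) (m : ℕ) : ℕ :=
  if @List.idxOf (ℕ × ℕ) instBEqOfDecidableEq (n, m) (sums g (m + 1)) <
    (sums g (m + 1)).length then 1 else 0

theorem sums_succ (g : ℕ → Bool) (M : ℕ) : sums g (M + 1) = stp (g M) M (sums g M) := by
  unfold sums
  rw [List.range_succ, List.foldl_append]
  rfl

theorem sums_congr {g g' : ℕ → Bool} (M : ℕ) (h : ∀ k < M, g k = g' k) :
    sums g M = sums g' M := by
  induction M with
  | zero => rfl
  | succ M ih => rw [sums_succ, sums_succ, h M (by omega), ih fun k hk => h k (by omega)]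

theorem mem_sums (g : ℕ → Bool) (M c s : ℕ) : (c, s) ∈ sums g M ↔
    ∃ T : Finset ℕ, (∀ a ∈ T, a < M ∧ g a = true) ∧ T.card = c ∧ ∑ a ∈ T, a = s := by
  classical
  induction M generalizing c s with
  | zero =>
    have h0 : sums g 0 = [(0, 0)] := rfl
    rw [h0, List.mem_singleton]
    constructor
    · intro h
      rw [Prod.mk.injEq] at h
      exact ⟨∅, by simp, by simp [h.1], by simp [h.2]⟩
    · rintro ⟨T, h1, h2, h3⟩
      have h4 : T = ∅ := by
        rw [Finset.eq_empty_iff_forall_notMem]
        intro a ha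
        have := (h1 a ha).1
        omega
      subst h4
      rw [Finset.card_empty] at h2
      rw [Finset.sum_empty] at h3
      rw [← h2, ← h3]
  | succ M ih =>
    rw [sums_succ]
    unfold stp
    cases hg : g M with
    | false =>
      rw [cond_false, ih]
      constructor
      · rintro ⟨T, h1, h2⟩
        exact ⟨T, fun a ha => ⟨(h1 a ha).1.trans (Nat.lt_succ_self M), (h1 a ha).2⟩, h2⟩
      · rintro ⟨T, h1, h2⟩
        refine ⟨T, fun a ha => ⟨?_, (h1 a ha).2⟩, h2⟩
        have h3 := (h1 a ha).1
        rcases Nat.lt_or_ge a M with h | h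
        · exact h
        · exfalso
          have h4 : a = M := by omega
          have h5 := (h1 a ha).2
          rw [h4, hg] at h5
          exact Bool.noConfusion h5
    | true =>
      rw [cond_true, List.mem_append, List.mem_map, ih]
      constructor
      · rintro (⟨T, h1, h2⟩ | ⟨⟨c', s'⟩, h1, h2⟩)
        · exact ⟨T, fun a ha => ⟨(h1 a ha).1.trans (Nat.lt_succ_self M), (h1 a ha).2⟩, h2⟩
        · rw [Prod.mk.injEq] at h2
          obtain ⟨T, h3, h4, h5⟩ := (ih c' s').1 h1
          have hM : M ∉ T := fun h => lt_irrefl M (h3 M h).1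
          refine ⟨insert M T, ?_, ?_, ?_⟩
          · intro a ha
            rcases Finset.mem_insert.1 ha with h | h
            · rw [h]; exact ⟨Nat.lt_succ_self M, hg⟩
            · exact ⟨(h3 a h).1.trans (Nat.lt_succ_self M), (h3 a h).2⟩
          · rw [Finset.card_insert_of_notMem hM, h4]; exact h2.1
          · rw [Finset.sum_insert hM, h5, add_comm]; exact h2.2
      · rintro ⟨T, h1, h2, h3⟩
        by_cases hM : M ∈ T
        · right
          refine ⟨(c - 1, s - M), (ih _ _).2 ⟨T.erase M, ?_, ?_, ?_⟩, ?_⟩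
          · intro a ha
            have h4 := h1 a (Finset.mem_of_mem_erase ha)
            have h5 := Finset.ne_of_mem_erase ha
            exact ⟨by omega, h4.2⟩
          · rw [Finset.card_erase_of_mem hM, h2]
          · have h4 := Finset.sum_erase_add T (fun a => a) hM
            have h5 : ∑ x ∈ T.erase M, x + M = s := by rw [← h3]; exact h4
            omega
          · have h4 : 0 < T.card := Finset.card_pos.2 ⟨M, hM⟩
            have h5 : M ≤ s := by
              rw [← h3]; exact Finset.single_le_sum (f := fun a => a) (fun _ _ => Nat.zero_le _) hM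
            rw [Prod.mk.injEq]
            constructor <;> simp only [] <;> omega
        · left
          refine ⟨T, fun a ha => ⟨?_, (h1 a ha).2⟩, h2, h3⟩
          have h4 := (h1 a ha).1
          have h5 : a ≠ M := fun h => hM (h ▸ ha)
          omega

theorem idx_iff {α : Type*} [DecidableEq α] (l : List α) (p : α) :
    l.idxOf p < l.length ↔ p ∈ l := List.idxOf_lt_length_iff

theorem wv_eq_one (n : ℕ) (g : ℕ → Bool) (m : ℕ) : wv n g m = 1 ↔
    ∃ T : Finset ℕ, (∀ a ∈ T, g a = true) ∧ T.card = n ∧ ∑ a ∈ T, a = m := by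
  have h1 : wv n g m = 1 ↔ (n, m) ∈ sums g (m + 1) := by
    unfold wv
    split_ifs with h
    · exact ⟨fun _ => (idx_iff _ _).1 h, fun _ => rfl⟩
    · exact ⟨fun h0 => by simp at h0, fun h0 => absurd ((idx_iff _ _).2 h0) h⟩
  rw [h1, mem_sums]
  constructor
  · rintro ⟨T, h2, h3⟩
    exact ⟨T, fun a ha => (h2 a ha).2, h3⟩
  · rintro ⟨T, h2, h3, h4⟩
    refine ⟨T, fun a ha => ⟨?_, h2 a ha⟩, h3, h4⟩
    have h5 : a ≤ m := by
      rw [← h4]; exact Finset.single_le_sum (f := fun a => a) (fun _ _ => Nat.zero_le _) ha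
    omega

theorem wv_lt (n : ℕ) (g : ℕ → Bool) (m : ℕ) : wv n g m < 2 := by
  unfold wv; split_ifs <;> omega

theorem wv_congr {n : ℕ} {g g' : ℕ → Bool} {m : ℕ} (h : ∀ k ≤ m, g k = g' k) :
    wv n g m = wv n g' m := by
  unfold wv
  rw [sums_congr (m + 1) fun k hk => h k (by omega)]

/-- the second component of a word for a pair -/
def gl (l : List ℕ) (k : ℕ) : Bool := l.getD (2 * k + 1) 0 == 1

/-- the word function -/
def psi (n : ℕ) (l : List ℕ) : List ℕ := init (wv n (gl l)) (l.length / 2)

theorem init_congr' {x y : ℕ → ℕ} {m : ℕ} (h : ∀ k < m, x k = y k) : init x m = init y m := by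
  unfold init
  exact List.map_congr_left fun k hk => h k (List.mem_range.1 hk)

theorem machine_psi (n : ℕ) : IsMachine (psi n) := by
  constructor
  · refine Primrec.to_comp ?_
    unfold psi init
    refine Primrec.list_map (Primrec.list_range.comp
      (Primrec.nat_div.comp Primrec.list_length (Primrec.const 2))) ?_
    have hgl : Primrec₂ fun (l : List ℕ) (k : ℕ) => gl l k := by
      unfold gl
      exact Primrec.beq.comp ((Primrec.list_getD 0).comp Primrec.fst
        (Primrec.succ.comp (Primrec.nat_mul.comp (Primrec.const 2) Primrec.snd)))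
        (Primrec.const 1)
    have hs : Primrec fun p : List ℕ × ℕ => sums (gl p.1) (p.2 + 1) := by
      unfold sums
      refine Primrec.list_foldl (f := fun p : List ℕ × ℕ => List.range (p.2 + 1))
        (g := fun _ => [((0 : ℕ), (0 : ℕ))])
        (h := fun p q => stp (gl p.1 q.2) q.2 q.1)
        (Primrec.list_range.comp (Primrec.succ.comp Primrec.snd)) (Primrec.const _) ?_
      unfold stp
      have hacc : Primrec fun q : (List ℕ × ℕ) × (List (ℕ × ℕ) × ℕ) => q.2.1 :=
        Primrec.fst.comp Primrec.snd
      refine Primrec.cond (hgl.comp (Primrec.fst.comp Primrec.fst)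
        (Primrec.snd.comp Primrec.snd)) (Primrec.list_append.comp hacc
        (Primrec.list_map hacc ?_)) hacc
      refine Primrec.pair (Primrec.succ.comp (Primrec.fst.comp Primrec.snd))
        (Primrec.nat_add.comp (Primrec.snd.comp Primrec.snd)
          (Primrec.snd.comp (Primrec.snd.comp Primrec.fst)))
    have hnm : Primrec fun p : List ℕ × ℕ => (n, p.2) := Primrec.pair (Primrec.const n) Primrec.snd
    unfold wv
    refine Primrec.ite (Primrec.nat_lt.comp (Primrec.list_idxOf.comp hnm hs)
      (Primrec.list_length.comp hs)) (Primrec.const 1) (Primrec.const 0)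
  · rintro a _ ⟨c, rfl⟩
    unfold psi
    have h1 : init (wv n (gl a)) (a.length / 2) = init (wv n (gl (a ++ c))) (a.length / 2) := by
      refine init_congr' fun m hm => wv_congr fun k hk => ?_
      unfold gl
      rw [List.getD_append _ _ _ _ (by omega)]
    rw [h1]
    exact init_prefix_iff_le (by rw [List.length_append]; omega)

theorem maps_psi (n : ℕ) (x z : ℕ → ℕ) : Maps (psi n) (pair x z) (wv n fun k => z k == 1) := by
  constructor
  · intro M
    unfold psi
    rw [length_init, length_init]
    refine init_congr' fun m hm => wv_congr fun k hk => ?_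
    unfold gl
    rw [init_getD _ _ _ _ (by omega)]
    unfold pair
    rw [if_neg (by omega)]
    have : (2 * k + 1) / 2 = k := by omega
    rw [this]
  · intro N
    refine ⟨2 * N, ?_⟩
    unfold psi
    rw [length_init, length_init]
    omega

/-- the sums of exactly `n` elements of an infinite set form an infinite set -/
theorem inf_sums {z : ℕ → ℕ} (hz : {k | z k = 1}.Infinite) {n : ℕ} (hn : 1 ≤ n) :
    {m | wv n (fun k => z k == 1) m = 1}.Infinite := by
  refine Set.infinite_of_forall_exists_gt fun N => ?_
  have h1 : ({k | z k = 1} \ {k | k ≤ N}).Infinite := hz.sdiff (Set.finite_le_nat N)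
  obtain ⟨T, h2, h3⟩ := h1.exists_subset_card_eq n
  obtain ⟨a, ha⟩ : T.Nonempty := Finset.card_pos.1 (by omega)
  refine ⟨∑ a ∈ T, a, (wv_eq_one _ _ _).2 ⟨T, fun b hb => ?_, h3, rfl⟩, ?_⟩
  · have : z b = 1 := (h2 hb).1
    simp [this]
  · have h4 : ¬ a ≤ N := (h2 ha).2
    have h5 := Finset.single_le_sum (f := fun a => a) (fun _ _ => Nat.zero_le _) ha
    have h6 : a ≤ ∑ a ∈ T, a := h5
    omega

end Pool.Agent.Y579.HN
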