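import Pool.Agent.H190R3.HT.Core

/-!
# Sums of exactly `n` elements: the combinatorial core

Limits of two-colourings of the integers along the multiples of an idempotent ultrafilter, and the
extension lemma for finite sets.
-/

set_option autoImplicit false

namespace Pool.Agent.Y579.HN

open Filter Pool.Agent.H190R3.HT

/-- The limit of `D (x + l y)` along the ultrafilter `e`. -/
noncomputable def LL (e : Ultrafilter ℤ) (l : ℕ) (D : ℤ → Bool) (x : ℤ) : Bool :=
  lm e fun y => D (x + l * y)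

/-- The properties of the ultrafilter that are used. -/
def Idem (e : Ultrafilter ℤ) : Prop := (∀ n : ℤ, ∀ᶠ y in (e : Filter ℤ), n ≤ y) ∧
  ∀ D : ℤ → Bool, ∀ᶠ y in (e : Filter ℤ), ∀ᶠ y' in (e : Filter ℤ), D (y + y') = lm e D

variable {e : Ultrafilter ℤ}

theorem LL_spec (e : Ultrafilter ℤ) (l : ℕ) (D : ℤ → Bool) (x : ℤ) :
    ∀ᶠ y in (e : Filter ℤ), D (x + l * y) = LL e l D x := lm_spec e _

theorem LL_spec' {l : ℕ} {D : ℤ → Bool} {x : ℤ} {j : Bool} (h : LL e l D x = j) :
    ∀ᶠ y in (e : Filter ℤ), D (x + l * y) = j := by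
  rw [← h]; exact LL_spec e l D x

theorem star (he : Idem e) {S : ℤ → Prop} (hS : ∀ᶠ y in (e : Filter ℤ), S y) :
    ∀ᶠ y in (e : Filter ℤ), ∀ᶠ y' in (e : Filter ℤ), S (y + y') := by
  classical
  have h1 : lm e (fun y => decide (S y)) = true := lm_eq e _ _ (hS.mono fun y hy => by simpa using hy)
  have h2 := he.2 fun y => decide (S y)
  rw [h1] at h2
  exact h2.mono fun y hy => hy.mono fun y' hy' => by simpa using hy'

theorem dvd_ev (he : Idem e) {N : ℕ} (hN : 0 < N) : ∀ᶠ y in (e : Filter ℤ), (N : ℤ) ∣ y := by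
  have h2 : ∀ᶠ y in (e : Filter ℤ), ∃ r ∈ (Finset.range N : Set ℕ), y % N = (r : ℤ) := by
    refine Eventually.of_forall fun y => ?_
    have h3 : 0 ≤ y % (N : ℤ) := Int.emod_nonneg _ (by omega)
    have h4 : y % (N : ℤ) < N := Int.emod_lt_of_pos _ (by omega)
    refine ⟨(y % (N : ℤ)).toNat, ?_, (Int.toNat_of_nonneg h3).symm⟩
    rw [Finset.mem_coe, Finset.mem_range]
    omega
  obtain ⟨r, hr, h5⟩ := (Ultrafilter.eventually_exists_mem_iff (f := e) (Finset.finite_toSet _)
    (P := fun (r : ℕ) y => y % (N : ℤ) = (r : ℤ))).1 h2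
  obtain ⟨y, h6, h7⟩ := (h5.and (star he h5)).exists
  obtain ⟨y', h8, h9⟩ := (h5.and h7).exists
  have hr' : (r : ℤ) < N := by
    rw [Finset.mem_coe, Finset.mem_range] at hr
    exact_mod_cast hr
  have h10 : ((r : ℤ) + r) % N = r := by
    have h := Int.add_emod y y' N
    rw [h6, h8, h9] at h
    exact h.symm
  have h11 : (N : ℤ) ∣ r := by
    have h12 : (N : ℤ) ∣ ((r : ℤ) + r) - ((r : ℤ) + r) % N := Int.dvd_self_sub_emod
    rw [h10] at h12
    simpa using h12
  have h13 : (r : ℤ) = 0 := Int.eq_zero_of_dvd_of_nonneg_of_lt (by omega) hr' h11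
  refine h5.mono fun y hy => ?_
  rw [h13] at hy
  exact Int.dvd_of_emod_eq_zero hy

/-- Hindman's theorem along the idempotent ultrafilter. -/
theorem hind (he : Idem e) {S : ℤ → Prop} (hS : ∀ᶠ y in (e : Filter ℤ), S y) :
    ∃ y : ℕ → ℤ, StrictMono y ∧ ∀ T : Finset ℕ, T.Nonempty → S (∑ i ∈ T, y i) := by
  classical
  let St : ℤ → Prop := fun y => S y ∧ ∀ᶠ y' in (e : Filter ℤ), S (y + y')
  have hSt : ∀ᶠ y in (e : Filter ℤ), St y := hS.and (star he hS)
  have hstep : ∀ a, St a → ∀ᶠ y in (e : Filter ℤ), St (a + y) := by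
    intro a ha
    refine ha.2.and ((star he ha.2).mono fun y hy => hy.mono fun y' hy' => ?_)
    rw [add_assoc]; exact hy'
  obtain ⟨f, hf1, hf2⟩ := exists_seq_of_forall_finset_exists
    (P := fun x : Finset ℤ × ℤ => 0 ∈ x.1 ∧ (∀ a ∈ x.1, a = 0 ∨ St a) ∧ ∀ a ∈ x.1, St (a + x.2))
    (r := fun x x' => x.2 < x'.2 ∧ ∀ a ∈ x.1, a ∈ x'.1 ∧ a + x.2 ∈ x'.1) (by
      intro s hs
      have hA : ∀ a ∈ insert (0 : ℤ) (s.biUnion fun x => x.1 ∪ x.1.image (· + x.2)),
          a = 0 ∨ St a := by
        intro a ha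
        rw [Finset.mem_insert, Finset.mem_biUnion] at ha
        rcases ha with ha | ⟨x, hx, ha⟩
        · exact Or.inl ha
        · rw [Finset.mem_union, Finset.mem_image] at ha
          rcases ha with ha | ⟨b, hb, rfl⟩
          · exact (hs x hx).2.1 a ha
          · exact Or.inr ((hs x hx).2.2 b hb)
      have h1 : ∀ᶠ y in (e : Filter ℤ),
          ∀ a ∈ insert (0 : ℤ) (s.biUnion fun x => x.1 ∪ x.1.image (· + x.2)), St (a + y) := by
        rw [Filter.eventually_all_finset]
        intro a ha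
        rcases hA a ha with h | h
        · rw [h]; simpa using hSt
        · exact hstep a h
      have h2 : ∀ᶠ y in (e : Filter ℤ), ∀ x ∈ s, x.2 < y := by
        rw [Filter.eventually_all_finset]
        intro x _
        exact (he.1 (x.2 + 1)).mono fun y hy => by omega
      obtain ⟨y, h3, h4⟩ := (h1.and h2).exists
      refine ⟨(insert (0 : ℤ) (s.biUnion fun x => x.1 ∪ x.1.image (· + x.2)), y),
        ⟨Finset.mem_insert_self _ _, hA, h3⟩, fun x hx => ⟨h4 x hx, fun a ha => ⟨?_, ?_⟩⟩⟩
      · refine Finset.mem_insert_of_mem (Finset.mem_biUnion.2 ⟨x, hx, ?_⟩)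
        exact Finset.mem_union_left _ ha
      · refine Finset.mem_insert_of_mem (Finset.mem_biUnion.2 ⟨x, hx, ?_⟩)
        exact Finset.mem_union_right _ (Finset.mem_image_of_mem _ ha))
  have hmem : ∀ T : Finset ℕ, ∀ m, (∀ i ∈ T, i < m) → ∑ i ∈ T, (f i).2 ∈ (f m).1 := by
    intro T
    induction T using Finset.induction_on_max with
    | empty => intro m _; rw [Finset.sum_empty]; exact (hf1 m).1
    | insert a T ha ih =>
      intro m hm
      have hna : a ∉ T := fun h => lt_irrefl a (ha a h)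
      rw [Finset.sum_insert hna, add_comm]
      exact ((hf2 a m (hm a (Finset.mem_insert_self _ _))).2 _ (ih a ha)).2
  refine ⟨fun i => (f i).2, fun a b hab => (hf2 a b hab).1, fun T hT => ?_⟩
  induction T using Finset.induction_on_max with
  | empty => exact absurd hT Finset.not_nonempty_empty
  | insert a T ha _ =>
    have hna : a ∉ T := fun h => lt_irrefl a (ha a h)
    rw [Finset.sum_insert hna, add_comm]
    exact ((hf1 a).2.2 _ (hmem T a ha)).1

/-- The extension lemma. -/
theorem extend (he : Idem e) (D : ℤ → Bool) (j : Bool) {n μ : ℕ} (hμ : 1 ≤ μ) (w : ℤ)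
    (F : Finset ℕ) (N : ℕ) (hF : ∀ x ∈ F, x < N)
    (hFF : ∀ T ⊆ F, T.card = n → D (∑ x ∈ T, (x : ℤ)) = j)
    (hL : ∀ T ⊆ F, T.card < n → LL e μ D (∑ x ∈ T, (x : ℤ) + ((n - T.card : ℕ) : ℤ) * w) = j) :
    ∃ H : Set ℕ, H.Infinite ∧ (∀ k < N, k ∈ H ↔ k ∈ F) ∧
      ∀ T : Finset ℕ, (T : Set ℕ) ⊆ H → T.card = n → D (∑ x ∈ T, (x : ℤ)) = j := by
  classical
  have hS : ∀ᶠ y in (e : Filter ℤ), (∀ T ∈ F.powerset, T.card < n →
      D (∑ x ∈ T, (x : ℤ) + ((n - T.card : ℕ) : ℤ) * w + μ * y) = j) ∧ (N : ℤ) + |w| ≤ y := by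
    refine Eventually.and ?_ (he.1 _)
    rw [Filter.eventually_all_finset]
    intro T hT
    by_cases hc : T.card < n
    · exact (LL_spec' (hL T (Finset.mem_powerset.1 hT) hc)).mono fun y hy _ => hy
    · exact Eventually.of_forall fun y h => absurd h hc
  obtain ⟨y, hy, hyS⟩ := hind he hS
  have hy1 : ∀ i, (N : ℤ) + |w| ≤ y i := fun i => by
    have := (hyS {i} (Finset.singleton_nonempty i)).2
    simpa using this
  have hpos : ∀ i, (N : ℤ) ≤ w + μ * y i := by
    intro i
    have h1 := hy1 i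
    have h2 : -|w| ≤ w := neg_abs_le w
    have h3 : 0 ≤ |w| := abs_nonneg w
    have h4 : (1 : ℤ) ≤ μ := by exact_mod_cast hμ
    have h5 : 0 ≤ y i := by omega
    have h6 : y i ≤ μ * y i := by nlinarith
    omega
  have hcast : ∀ i, (((w + μ * y i).toNat : ℕ) : ℤ) = w + μ * y i := fun i =>
    Int.toNat_of_nonneg (le_trans (Int.natCast_nonneg N) (hpos i))
  have hinj : Function.Injective fun i => (w + μ * y i).toNat := by
    intro a b hab
    have hab' : (w + μ * y a).toNat = (w + μ * y b).toNat := hab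
    have h1 : w + μ * y a = w + μ * y b := by rw [← hcast a, ← hcast b, hab']
    have h2 : (μ : ℤ) * y a = μ * y b := by linarith
    have h3 : (μ : ℤ) ≠ 0 := by
      have : μ ≠ 0 := by omega
      exact_mod_cast this
    exact hy.injective (mul_left_cancel₀ h3 h2)
  have hge : ∀ i, N ≤ (w + μ * y i).toNat := by
    intro i
    have h1 := hpos i
    have h2 := hcast i
    omega
  refine ⟨{k : ℕ | k ∈ F ∨ ∃ i, (w + μ * y i).toNat = k}, ?_, ?_, ?_⟩
  · exact Set.infinite_of_injective_forall_mem hinj fun i => Or.inr ⟨i, rfl⟩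
  · intro k hk
    constructor
    · rintro (h | ⟨i, hi⟩)
      · exact h
      · have := hge i
        omega
    · exact fun h => Or.inl h
  · intro T hT hTn
    have hsplit : T = T.filter (· < N) ∪ T.filter (¬ · < N) :=
      (Finset.filter_union_filter_not_eq _ T).symm
    have hdis : Disjoint (T.filter (· < N)) (T.filter (¬ · < N)) :=
      Finset.disjoint_filter_filter_not _ _ _
    have h1 : T.filter (· < N) ⊆ F := by
      intro x hx
      rw [Finset.mem_filter] at hx
      rcases hT hx.1 with h | ⟨i, hi⟩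
      · exact h
      · have := hge i
        omega
    have h2 : ((T.filter (¬ · < N) : Finset ℕ) : Set ℕ) ⊆
        (fun i => (w + μ * y i).toNat) '' Set.univ := by
      intro x hx
      rw [Finset.mem_coe, Finset.mem_filter] at hx
      rcases hT hx.1 with h | ⟨i, hi⟩
      · exact absurd (hF x h) hx.2
      · exact ⟨i, trivial, hi⟩
    obtain ⟨I, -, hI⟩ := Finset.subset_set_image_iff.1 h2
    have hIc : (T.filter (¬ · < N)).card = I.card := by
      rw [← hI]; exact Finset.card_image_of_injective I hinj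
    have hcard : (T.filter (· < N)).card + I.card = n := by
      rw [← hIc, ← Finset.card_union_of_disjoint hdis, ← hsplit, hTn]
    have hsum : ∑ x ∈ T, (x : ℤ) = ∑ x ∈ T.filter (· < N), (x : ℤ) + ((I.card : ℤ) * w +
        μ * ∑ i ∈ I, y i) := by
      conv_lhs => rw [hsplit]
      rw [Finset.sum_union hdis, ← hI, Finset.sum_image fun a _ b _ h => hinj h]
      congr 1
      rw [Finset.mul_sum, ← nsmul_eq_mul, ← Finset.sum_const, ← Finset.sum_add_distrib]
      exact Finset.sum_congr rfl fun i _ => hcast i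
    rcases Finset.eq_empty_or_nonempty I with h | h
    · rw [h, Finset.card_empty, add_zero] at hcard
      rw [hsum, h]
      simpa using hFF _ h1 hcard
    · have h3 := (hyS I h).1 _ (Finset.mem_powerset.2 h1) (by
        have := h.card_pos
        omega)
      have h4 : n - (T.filter (· < N)).card = I.card := by omega
      rw [h4] at h3
      rw [hsum, ← add_assoc]
      exact h3

end Pool.Agent.Y579.HN
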