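import Pool.Agent.H190R3.HT.Game
import Pool.Agent.Y579.HN.Core

/-!
# Sums of exactly `n` elements: no continuous reduction from the pigeonhole principle with three
colours
-/

set_option autoImplicit false

namespace Pool.Agent.Y579.HN

open Filter Pool.Agent.H190R3.HT

/-- `H` is infinite and its sums of exactly `n` elements have the colour `i`. -/
def GoodN (n : ℕ) (d : ℕ → Bool) (H : Set ℕ) (i : Bool) : Prop :=
  H.Infinite ∧ ∀ T : Finset ℕ, (T : Set ℕ) ⊆ H → T.card = n → d (∑ x ∈ T, x) = i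

theorem DD_sum (d : ℕ → Bool) (T : Finset ℕ) : DD d (∑ x ∈ T, (x : ℤ)) = d (∑ x ∈ T, x) := by
  unfold DD
  rw [← Nat.cast_sum, Int.toNat_natCast]

/-- A set of numbers `v + l y i`, and its sums. -/
theorem thread {n l : ℕ} (hn : 1 ≤ n) (hl : 1 ≤ l) (z : ℤ) {y : ℕ → ℤ} (hy : StrictMono y)
    (hdiv : (n : ℤ) ∣ y 0) (hz : ∀ i, |z| ≤ y i) :
    ∃ (v : ℤ) (H : Set ℕ), H.Infinite ∧ ∀ T : Finset ℕ, (T : Set ℕ) ⊆ H → T.card ≤ n →
      ∃ J : Finset ℕ, J.Nonempty ∧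
        ∑ x ∈ T, (x : ℤ) + ((n - T.card : ℕ) : ℤ) * v = n * z + l * ∑ i ∈ J, y i := by
  classical
  obtain ⟨q, hq⟩ := hdiv
  have hn' : (1 : ℤ) ≤ n := by exact_mod_cast hn
  have hl' : (1 : ℤ) ≤ l := by exact_mod_cast hl
  have hq0 : 0 ≤ q := by
    have h1 := hz 0
    have h2 := abs_nonneg z
    by_contra h3
    push Not at h3
    nlinarith
  set v : ℤ := z + l * q with hv
  have hpos : ∀ i, 0 ≤ v + l * y (i + 1) := by
    intro i
    have h1 := hz (i + 1)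
    have h2 : -|z| ≤ z := neg_abs_le z
    have h3 := abs_nonneg z
    have h4 : 0 ≤ (l : ℤ) * q := by positivity
    have h5 : y (i + 1) ≤ l * y (i + 1) := by nlinarith
    omega
  have hcast : ∀ i, (((v + l * y (i + 1)).toNat : ℕ) : ℤ) = v + l * y (i + 1) := fun i =>
    Int.toNat_of_nonneg (hpos i)
  have hinj : Function.Injective fun i => (v + l * y (i + 1)).toNat := by
    intro a b hab
    have hab' : (v + l * y (a + 1)).toNat = (v + l * y (b + 1)).toNat := hab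
    have h1 : v + l * y (a + 1) = v + l * y (b + 1) := by rw [← hcast a, ← hcast b, hab']
    have h2 : (l : ℤ) * y (a + 1) = l * y (b + 1) := by linarith
    have h3 : (l : ℤ) ≠ 0 := by omega
    have h4 := hy.injective (mul_left_cancel₀ h3 h2)
    omega
  refine ⟨v, Set.range fun i => (v + l * y (i + 1)).toNat, Set.infinite_range_of_injective hinj,
    fun T hT hTn => ?_⟩
  rw [← Set.image_univ] at hT
  obtain ⟨I, -, hI⟩ := Finset.subset_set_image_iff.1 hT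
  have hIc : T.card = I.card := by rw [← hI]; exact Finset.card_image_of_injective I hinj
  refine ⟨insert 0 (I.image fun i => i + 1), Finset.insert_nonempty _ _, ?_⟩
  have h0 : 0 ∉ I.image fun i => i + 1 := by
    intro h
    rw [Finset.mem_image] at h
    obtain ⟨i, _, hi⟩ := h
    omega
  rw [Finset.sum_insert h0, Finset.sum_image (fun a _ b _ h => by omega), hq]
  have hsum : ∑ x ∈ T, (x : ℤ) = (T.card : ℤ) * v + l * ∑ i ∈ I, y (i + 1) := by
    rw [hIc, ← hI, Finset.sum_image fun a _ b _ h => hinj h, Finset.mul_sum, ← nsmul_eq_mul,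
      ← Finset.sum_const, ← Finset.sum_add_distrib]
    exact Finset.sum_congr rfl fun i _ => hcast i
  rw [hsum]
  have h1 : ((n - T.card : ℕ) : ℤ) = n - T.card := by omega
  rw [h1, hv]
  ring

section game

variable {e : Ultrafilter ℤ} (he : Idem e)
variable {ν : (ℕ → Fin 3) → ℕ} {Φ : (ℕ → Fin 3) → ℕ → Bool} {Ψ : (ℕ → Fin 3) → Set ℕ → Fin 3}
  (hν : ∀ f, EC f → 1 ≤ ν f)
  (hνc : ∀ f, EC f → ∃ m, ∀ f', EC f' → (∀ k < m, f' k = f k) → ν f' = ν f)
  (hΦ : ∀ f, EC f → ∀ n, ∃ m, ∀ f', EC f' → (∀ k < m, f' k = f k) →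
    ∀ k < n, Φ f' k = Φ f k)
  (hΨ : ∀ f, EC f → ∀ H i, GoodN (ν f) (Φ f) H i → ∃ n, ∀ f', EC f' → ∀ H' i',
    (∀ k < n, f' k = f k) → (∀ k < n, k ∈ H' ↔ k ∈ H) → GoodN (ν f') (Φ f') H' i' →
      Ψ f' H' = Ψ f H)
  (hout : ∀ f, EC f → ∀ H i, GoodN (ν f) (Φ f) H i → {k | f k = Ψ f H}.Infinite)

include he hνc hΦ hΨ hout in
/-- Committed sets cannot be extended in a wrong phase. -/
theorem commit {f : ℕ → Fin 3} (hf : EC f) {H : Set ℕ} {i : Bool}
    (hH : GoodN (ν f) (Φ f) H i) :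
    ∃ N, ∀ f', EC f' → (∀ k < N, f' k = f k) → ∀ (w : ℤ) (μ : ℕ), 1 ≤ μ →
      (∀ T : Finset ℕ, (T : Set ℕ) ⊆ H → (∀ x ∈ T, x < N) → T.card < ν f →
        LL e μ (DD (Φ f')) (∑ x ∈ T, (x : ℤ) + ((ν f - T.card : ℕ) : ℤ) * w) = i) →
      {k | f' k = Ψ f H}.Infinite := by
  classical
  obtain ⟨n0, hn0⟩ := hΨ f hf H i hH
  obtain ⟨m, hm⟩ := hΦ f hf (ν f * n0 + 1)
  obtain ⟨m', hm'⟩ := hνc f hf
  refine ⟨max n0 (max m m'), fun f' hf' hag w μ hμ hw => ?_⟩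
  have hνf : ν f' = ν f := hm' f' hf' fun k hk => hag k (by
    exact lt_max_of_lt_right (lt_max_of_lt_right hk))
  have hFmem : ∀ x, x ∈ (Finset.range n0).filter (· ∈ H) ↔ x < n0 ∧ x ∈ H := fun x => by simp
  obtain ⟨H', h1, h2, h3⟩ := extend he (DD (Φ f')) i (n := ν f) hμ w
    ((Finset.range n0).filter (· ∈ H)) n0 (fun x hx => ((hFmem x).1 hx).1) (by
      intro T hT hTn
      have hle : ∑ x ∈ T, x ≤ ν f * n0 := by
        rw [← hTn, ← smul_eq_mul]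
        exact Finset.sum_le_card_nsmul T _ n0 fun x hx => ((hFmem x).1 (hT hx)).1.le
      rw [DD_sum, hm f' hf' (fun k hk => hag k (lt_max_of_lt_right (lt_max_of_lt_left hk))) _
        (by omega)]
      exact hH.2 T (fun x hx => ((hFmem x).1 (hT hx)).2) hTn) (by
      intro T hT hTn
      exact hw T (fun x hx => ((hFmem x).1 (hT hx)).2)
        (fun x hx => lt_max_of_lt_left ((hFmem x).1 (hT hx)).1) hTn)
  have hgood : GoodN (ν f') (Φ f') H' i := ⟨h1, fun T hT hTn => by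
    rw [← DD_sum (Φ f')]
    exact h3 T hT (hTn.trans hνf)⟩
  have h4 := hn0 f' hf' H' i (fun k hk => hag k (lt_max_of_lt_left hk)) (by
    intro k hk
    rw [h2 k hk, hFmem]
    exact ⟨fun h => h.2, fun h => ⟨hk, h⟩⟩) hgood
  rw [← h4]
  exact hout f' hf' H' i hgood

omit he hν hνc hΦ hΨ in
include hout in
theorem psi_const {f : ℕ → Fin 3} {a : Fin 3} {n₀ : ℕ} (hf : ∀ k, n₀ ≤ k → f k = a)
    {H : Set ℕ} {i : Bool} (hH : GoodN (ν f) (Φ f) H i) : Ψ f H = a := by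
  by_contra hne
  apply hout f ⟨a, n₀, hf⟩ H i hH
  refine (Set.finite_lt_nat n₀).subset ?_
  intro k hk
  simp only [Set.mem_ofPred_eq] at hk ⊢
  by_contra hkn
  apply hne
  rw [← hk]
  exact hf k (by omega)

/-- The instance `f` below `m`, and `c` from `m` on. -/
def sw (f : ℕ → Fin 3) (c : Fin 3) (m k : ℕ) : Fin 3 := if k < m then f k else c

theorem sw_ge (f : ℕ → Fin 3) (c : Fin 3) {m k : ℕ} (h : m ≤ k) : sw f c m k = c := by
  unfold sw; rw [if_neg (by omega)]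

theorem sw_lt (f : ℕ → Fin 3) (c : Fin 3) {m k : ℕ} (h : k < m) : sw f c m k = f k := by
  unfold sw; rw [if_pos h]

theorem sw_fin (f : ℕ → Fin 3) {a c : Fin 3} (h : c ≠ a) (m : ℕ) :
    ¬ {k | sw f c m k = a}.Infinite := by
  intro hinf
  apply hinf
  refine (Set.finite_lt_nat m).subset ?_
  intro k hk
  simp only [Set.mem_ofPred_eq] at hk ⊢
  by_contra hkn
  apply h
  rw [← hk]
  exact (sw_ge f c (by omega)).symm

/-- The limit, for later and later changes of the phase, of the limit colourings. -/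
noncomputable def BB (e : Ultrafilter ℤ) (Φ : (ℕ → Fin 3) → ℕ → Bool) (f : ℕ → Fin 3) (c : Fin 3)
    (μ : ℕ) (x : ℤ) : Bool :=
  lm (hyperfilter ℕ) fun m => LL e μ (DD (Φ (sw f c m))) x

theorem BB_spec' {f : ℕ → Fin 3} {c : Fin 3} {μ : ℕ} {x : ℤ} {j : Bool}
    (h : BB e Φ f c μ x = j) :
    ∀ᶠ m in (hyperfilter ℕ : Filter ℕ), LL e μ (DD (Φ (sw f c m))) x = j := by
  rw [← h]; exact lm_spec _ _

theorem ge_ev (N : ℕ) : ∀ᶠ m in (hyperfilter ℕ : Filter ℕ), N ≤ m := by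
  apply Filter.hyperfilter_le_cofinite
  rw [Filter.mem_cofinite]
  refine (Set.finite_lt_nat N).subset ?_
  intro k hk
  simp only [Set.mem_compl_iff, Set.mem_ofPred_eq, not_le] at hk ⊢
  exact hk

include he hν hνc hΦ hΨ hout in
/-- The colour of a phase and the limit colour of the later phases differ. -/
theorem c_one {f : ℕ → Fin 3} {a : Fin 3} {n₀ : ℕ} (hf : ∀ k, n₀ ≤ k → f k = a) {c : Fin 3}
    (hc : c ≠ a) {l μ : ℕ} (hl : 1 ≤ l) (hμ : 1 ≤ μ) (z : ℤ) :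
    LL e l (BB e Φ f c μ) (ν f * z) ≠ LL e l (DD (Φ f)) (ν f * z) := by
  classical
  intro heq
  have hec : EC f := ⟨a, n₀, hf⟩
  obtain ⟨j, hj⟩ : ∃ j, LL e l (DD (Φ f)) (ν f * z) = j := ⟨_, rfl⟩
  have hj' : LL e l (BB e Φ f c μ) (ν f * z) = j := heq.trans hj
  have hn := hν f hec
  have hS : ∀ᶠ y in (e : Filter ℤ), (DD (Φ f) (ν f * z + l * y) = j ∧
      BB e Φ f c μ (ν f * z + l * y) = j) ∧ (ν f : ℤ) ∣ y ∧ |z| ≤ y :=
    ((LL_spec' hj).and (LL_spec' hj')).and ((dvd_ev he (by omega)).and (he.1 _))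
  obtain ⟨y, hy, hyS⟩ := hind he hS
  have hyi : ∀ i, (ν f : ℤ) ∣ y i ∧ |z| ≤ y i := fun i => by
    have h := (hyS {i} (Finset.singleton_nonempty i)).2
    rw [Finset.sum_singleton] at h
    exact h
  obtain ⟨v, H, hH, hT⟩ := thread hn hl z hy (hyi 0).1 (fun i => (hyi i).2)
  have hgood : GoodN (ν f) (Φ f) H j := by
    refine ⟨hH, fun T hT1 hT2 => ?_⟩
    obtain ⟨J, hJ, h1⟩ := hT T hT1 hT2.le
    have h2 := (hyS J hJ).1.1
    rw [← h1, hT2, Nat.sub_self, Nat.cast_zero, zero_mul, add_zero, DD_sum] at h2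
    exact h2
  obtain ⟨N, hN⟩ := commit he hνc hΦ hΨ hout hec hgood
  have hΨa := psi_const hout hf hgood
  have h1 : ∀ᶠ m in (hyperfilter ℕ : Filter ℕ), ∀ T ∈ (Finset.range N).powerset,
      (T : Set ℕ) ⊆ H → T.card < ν f →
        LL e μ (DD (Φ (sw f c m))) (∑ x ∈ T, (x : ℤ) + ((ν f - T.card : ℕ) : ℤ) * v) = j := by
    rw [Filter.eventually_all_finset]
    intro T _
    by_cases h : (T : Set ℕ) ⊆ H ∧ T.card < ν f
    · obtain ⟨J, hJ, h3⟩ := hT T h.1 h.2.le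
      have h2 := (hyS J hJ).1.2
      rw [← h3] at h2
      exact (BB_spec' h2).mono fun m hm _ _ => hm
    · exact Eventually.of_forall fun m h2 h3 => absurd ⟨h2, h3⟩ h
  obtain ⟨m, hm1, hm2⟩ := (h1.and (ge_ev N)).exists
  have h2 := hN (sw f c m) ⟨c, m, fun k hk => sw_ge f c hk⟩
    (fun k hk => sw_lt f c (by omega)) v μ hμ (fun T hT1 hT2 hT3 =>
      hm1 T (Finset.mem_powerset.2 fun x hx => Finset.mem_range.2 (hT2 x hx)) hT1 hT3)
  rw [hΨa] at h2
  exact sw_fin f hc m h2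

include hν hνc hΦ hΨ hout in
/-- There are no continuous `ν`, `Φ`, `Ψ` such that `Ψ f H` is a colour which `f` takes infinitely
often whenever the sums of exactly `ν f` elements of the infinite set `H` have one colour for
`Φ f`. -/
theorem no_reduction : False := by
  classical
  obtain ⟨e, he1, he2⟩ := Pool.Agent.H190R3.HT.exists_idem
  have he : Idem e := ⟨he1, he2⟩
  let f0 : ℕ → Fin 3 := fun _ => 0
  have hf0 : ∀ k, 0 ≤ k → f0 k = 0 := fun k _ => rfl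
  have hec0 : EC f0 := ⟨0, 0, hf0⟩
  obtain ⟨n, hn0⟩ : ∃ n, ν f0 = n := ⟨_, rfl⟩
  have hn : 1 ≤ n := hn0 ▸ hν f0 hec0
  obtain ⟨j, hj⟩ : ∃ j, LL e 1 (DD (Φ f0)) (n * 0) = j := ⟨_, rfl⟩
  have hC : ∀ l, 1 ≤ l → LL e 1 (BB e Φ f0 1 l) (n * 0) = !j := by
    intro l hl
    have h := c_one he hν hνc hΦ hΨ hout hf0 (c := 1) (by decide) le_rfl hl 0
    rw [hn0, hj] at h
    cases j <;> simpa using h
  have hS : ∀ᶠ y in (e : Filter ℤ), (DD (Φ f0) (n * 0 + (1 : ℕ) * y) = j ∧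
      ∀ l ∈ Finset.Icc 1 n, BB e Φ f0 1 l (n * 0 + (1 : ℕ) * y) = !j) ∧ (n : ℤ) ∣ y ∧
        |(0 : ℤ)| ≤ y := by
    refine ((LL_spec' hj).and ?_).and ((dvd_ev he (by omega)).and (he.1 _))
    rw [Filter.eventually_all_finset]
    intro l hl
    exact LL_spec' (hC l (Finset.mem_Icc.1 hl).1)
  obtain ⟨y, hy, hyS⟩ := hind he hS
  have hyi : ∀ i, (n : ℤ) ∣ y i ∧ |(0 : ℤ)| ≤ y i := fun i => by
    have h := (hyS {i} (Finset.singleton_nonempty i)).2
    rw [Finset.sum_singleton] at h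
    exact h
  obtain ⟨v, H, hH, hT⟩ := thread hn (le_refl 1) 0 hy (hyi 0).1 (fun i => (hyi i).2)
  have hgood : GoodN (ν f0) (Φ f0) H j := by
    refine ⟨hH, fun T hT1 hT2 => ?_⟩
    rw [hn0] at hT2
    obtain ⟨J, hJ, h1⟩ := hT T hT1 hT2.le
    have h2 := (hyS J hJ).1.1
    rw [← h1, hT2, Nat.sub_self, Nat.cast_zero, zero_mul, add_zero, DD_sum] at h2
    exact h2
  obtain ⟨N, hN⟩ := commit he hνc hΦ hΨ hout hec0 hgood
  have hΨ0 := psi_const hout hf0 hgood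
  obtain ⟨m', hm'⟩ := hνc f0 hec0
  -- the second phase
  have h1 : ∀ᶠ m in (hyperfilter ℕ : Filter ℕ), ∀ T ∈ (Finset.range N).powerset,
      ∀ l ∈ Finset.Icc 1 n, (T : Set ℕ) ⊆ H → T.card < n →
        LL e l (DD (Φ (sw f0 1 m))) (∑ x ∈ T, (x : ℤ) + ((n - T.card : ℕ) : ℤ) * v) = !j := by
    rw [Filter.eventually_all_finset]
    intro T _
    rw [Filter.eventually_all_finset]
    intro l hl
    by_cases h : (T : Set ℕ) ⊆ H ∧ T.card < n
    · obtain ⟨J, hJ, h3⟩ := hT T h.1 h.2.le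
      have h2 := (hyS J hJ).1.2 l hl
      rw [← h3] at h2
      exact (BB_spec' h2).mono fun m hm _ _ => hm
    · exact Eventually.of_forall fun m h2 h3 => absurd ⟨h2, h3⟩ h
  obtain ⟨m0, hm1, hm2, hm3⟩ := (h1.and ((ge_ev N).and (ge_ev m'))).exists
  obtain ⟨f1, hf1⟩ : ∃ f1, f1 = sw f0 1 m0 := ⟨_, rfl⟩
  have hf1c : ∀ k, m0 ≤ k → f1 k = 1 := fun k hk => by rw [hf1]; exact sw_ge f0 1 hk
  have hn1 : ν f1 = n := by
    rw [← hn0]
    exact hm' f1 ⟨1, m0, hf1c⟩ fun k hk => by rw [hf1]; exact sw_lt f0 1 (by omega)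
  rw [← hf1] at hm1
  -- the third phase
  have h2 : ∀ᶠ δ in (e : Filter ℤ), ∀ T ∈ (Finset.range N).powerset,
      ∀ l ∈ Finset.Icc 1 n, (T : Set ℕ) ⊆ H → T.card < n →
        BB e Φ f1 2 1 (∑ x ∈ T, (x : ℤ) + ((n - T.card : ℕ) : ℤ) * v + l * δ) = j := by
    rw [Filter.eventually_all_finset]
    intro T hTN
    rw [Filter.eventually_all_finset]
    intro l hl
    by_cases h : (T : Set ℕ) ⊆ H ∧ T.card < n
    · obtain ⟨J, hJ, h3⟩ := hT T h.1 h.2.le
      obtain ⟨z, hz⟩ := (hyS J hJ).2.1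
      have h4 : ∑ x ∈ T, (x : ℤ) + ((n - T.card : ℕ) : ℤ) * v = n * z := by
        rw [h3, hz]; push_cast; ring
      have h5 := hm1 T hTN l hl h.1 h.2
      have h6 := c_one he hν hνc hΦ hΨ hout hf1c (c := 2) (by decide)
        (Finset.mem_Icc.1 hl).1 (le_refl 1) z
      rw [h4] at h5
      rw [hn1, h5] at h6
      have h7 : LL e l (BB e Φ f1 2 1) (n * z) = j := by cases j <;> simpa using h6
      rw [h4]
      exact (LL_spec' h7).mono fun δ hδ _ _ => hδ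
    · exact Eventually.of_forall fun m h2 h3 => absurd ⟨h2, h3⟩ h
  obtain ⟨δ, hδ⟩ := h2.exists
  have h3 : ∀ᶠ m in (hyperfilter ℕ : Filter ℕ), ∀ T ∈ (Finset.range N).powerset,
      (T : Set ℕ) ⊆ H → T.card < n → LL e 1 (DD (Φ (sw f1 2 m)))
        (∑ x ∈ T, (x : ℤ) + ((n - T.card : ℕ) : ℤ) * (v + δ)) = j := by
    rw [Filter.eventually_all_finset]
    intro T hTN
    by_cases h : (T : Set ℕ) ⊆ H ∧ T.card < n
    · have h4 := hδ T hTN (n - T.card) (Finset.mem_Icc.2 (by omega)) h.1 h.2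
      rw [add_assoc, ← mul_add] at h4
      exact (BB_spec' h4).mono fun m hm _ _ => hm
    · exact Eventually.of_forall fun m h2 h3 => absurd ⟨h2, h3⟩ h
  obtain ⟨m1, hm4, hm5⟩ := (h3.and (ge_ev N)).exists
  have h4 := hN (sw f1 2 m1) ⟨2, m1, fun k hk => sw_ge f1 2 hk⟩
    (fun k hk => by rw [sw_lt f1 2 (by omega), hf1]; exact sw_lt f0 1 (by omega))
    (v + δ) 1 le_rfl (fun T hT1 hT2 hT3 => by
      rw [hn0] at hT3 ⊢
      exact hm4 T (Finset.mem_powerset.2 fun x hx => Finset.mem_range.2 (hT2 x hx)) hT1 hT3)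
  rw [hΨ0] at h4
  exact sw_fin f1 (by decide) m1 h4

end game

end Pool.Agent.Y579.HN
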