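import Pool.Agent.Y579.HN.Game
import Pool.Agent.H190R3.HT.Reduce

/-!
# Sums of exactly `n` elements: functionals given by word functions
-/

set_option autoImplicit false

namespace Pool.Agent.Y579.HN

open Pool.Agent.H190R3.Wei Pool.Agent.H190R3.HT

/-- the interface between word functions and the combinatorial theorem -/
theorem no_machine (c : (ℕ → Fin 3) → (ℕ → ℕ))
    (hc : ∀ f n, ∃ M, ∀ f', (∀ k < M, f' k = f k) → ∀ k < n, c f' k = c f k)
    (φ ψ : List ℕ → List ℕ)
    (hred : ∀ f, EC f → ∃ y : ℕ → ℕ, (1 ≤ y 0 ∧ ∀ n, y (n + 1) < 2) ∧ Maps φ (c f) y ∧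
      ∀ z : ℕ → ℕ, (∀ n, z n < 2) → {n | z n = 1}.Infinite →
        (∃ i, ∀ T : Finset ℕ, T.card = y 0 → (∀ a ∈ T, z a = 1) → y (∑ a ∈ T, a + 1) = i) →
        ∃ w, Maps ψ (pair (c f) z) w ∧ {n | w n = 1}.Infinite ∧
          ∀ a b, w a = 1 → w b = 1 → f a = f b) : False := by
  classical
  choose! Y hY1 hY2 hY3 using hred
  let ν : (ℕ → Fin 3) → ℕ := fun f => Y f 0
  let Φ : (ℕ → Fin 3) → ℕ → Bool := fun f k => decide (Y f (k + 1) = 1)
  -- the solution given by a good set
  have hW : ∀ f, EC f → ∀ H i, GoodN (ν f) (Φ f) H i → ∃ w, Maps ψ (pair (c f) (chi H)) w ∧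
      {n | w n = 1}.Infinite ∧ ∀ a b, w a = 1 → w b = 1 → f a = f b := by
    intro f hf H i hH
    apply hY3 f hf (chi H) (chi_lt H)
    · have : {n | chi H n = 1} = H := by ext k; exact chi_eq_one
      rw [this]; exact hH.1
    · refine ⟨if i then 1 else 0, fun T hT hTH => ?_⟩
      have h1 : decide (Y f (∑ a ∈ T, a + 1) = 1) = i :=
        hH.2 T (fun a ha => chi_eq_one.1 (hTH a ha)) hT
      have h2 := (hY1 f hf).2 (∑ a ∈ T, a)
      cases i
      · have h3 : ¬ Y f (∑ a ∈ T, a + 1) = 1 := by simpa using h1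
        simp only [Bool.false_eq_true, if_false]
        omega
      · have h3 : Y f (∑ a ∈ T, a + 1) = 1 := by simpa using h1
        simp [h3]
  let W : (ℕ → Fin 3) → Set ℕ → ℕ → ℕ := fun f H =>
    if h : ∃ w, Maps ψ (pair (c f) (chi H)) w ∧ {n | w n = 1}.Infinite ∧
      ∀ a b, w a = 1 → w b = 1 → f a = f b then h.choose else 0
  have hWs : ∀ f, EC f → ∀ H i, GoodN (ν f) (Φ f) H i → Maps ψ (pair (c f) (chi H)) (W f H) ∧
      {n | W f H n = 1}.Infinite ∧ ∀ a b, W f H a = 1 → W f H b = 1 → f a = f b := by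
    intro f hf H i hH
    have h := hW f hf H i hH
    have : W f H = h.choose := dif_pos h
    rw [this]
    exact h.choose_spec
  let Ψ : (ℕ → Fin 3) → Set ℕ → Fin 3 := fun f H => f (sInf {n | W f H n = 1})
  have hcont : ∀ f, EC f → ∀ n, ∃ m, ∀ f', EC f' → (∀ k < m, f' k = f k) →
      ∀ k < n, Y f' k = Y f k := by
    intro f hf n
    obtain ⟨m, hm⟩ := maps_cont (hY2 f hf) n
    obtain ⟨M, hM⟩ := hc f m
    exact ⟨M, fun f' hf' hff k hk => hm (c f') (Y f') (hM f' hff) (hY2 f' hf') k hk⟩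
  refine no_reduction (ν := ν) (Φ := Φ) (Ψ := Ψ) (fun f hf => (hY1 f hf).1) ?_ ?_ ?_ ?_
  · intro f hf
    obtain ⟨m, hm⟩ := hcont f hf 1
    exact ⟨m, fun f' hf' hff => hm f' hf' hff 0 (by omega)⟩
  · intro f hf n
    obtain ⟨m, hm⟩ := hcont f hf (n + 1)
    refine ⟨m, fun f' hf' hff k hk => ?_⟩
    show decide (Y f' (k + 1) = 1) = decide (Y f (k + 1) = 1)
    rw [hm f' hf' hff (k + 1) (by omega)]
  · intro f hf H i hH
    obtain ⟨h1, h2, h3⟩ := hWs f hf H i hH
    have hne : {n | W f H n = 1}.Nonempty := h2.nonempty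
    have hk0 : W f H (sInf {n | W f H n = 1}) = 1 := Nat.sInf_mem hne
    obtain ⟨m, hm⟩ := maps_cont h1 (sInf {n | W f H n = 1} + 1)
    obtain ⟨M, hM⟩ := hc f m
    refine ⟨max M (max m (sInf {n | W f H n = 1} + 1)), fun f' hf' H' i' hff hHH hH' => ?_⟩
    obtain ⟨h1', h2', h3'⟩ := hWs f' hf' H' i' hH'
    have hagree : ∀ k < sInf {n | W f H n = 1} + 1, W f' H' k = W f H k := by
      apply hm _ _ _ h1'
      intro k hk
      unfold pair
      split_ifs
      · exact hM f' (fun j hj => hff j (lt_max_of_lt_left hj)) (k / 2) (by omega)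
      · apply chi_congr
        exact hHH (k / 2) (lt_max_of_lt_right (lt_max_of_lt_left (by omega)))
    have heq : sInf {n | W f' H' n = 1} = sInf {n | W f H n = 1} := by
      apply le_antisymm
      · apply Nat.sInf_le
        show W f' H' _ = 1
        rw [hagree _ (Nat.lt_succ_self _)]
        exact hk0
      · by_contra hlt
        push Not at hlt
        have hne' : {n | W f' H' n = 1}.Nonempty := h2'.nonempty
        have h4 : W f' H' (sInf {n | W f' H' n = 1}) = 1 := Nat.sInf_mem hne'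
        rw [hagree _ (by omega)] at h4
        have := Nat.sInf_le (s := {n | W f H n = 1}) h4
        omega
    show f' (sInf {n | W f' H' n = 1}) = f (sInf {n | W f H n = 1})
    rw [heq]
    exact hff _ (lt_max_of_lt_right (lt_max_of_lt_right (Nat.lt_succ_self _)))
  · intro f hf H i hH
    obtain ⟨h1, h2, h3⟩ := hWs f hf H i hH
    have hk0 : W f H (sInf {n | W f H n = 1}) = 1 := Nat.sInf_mem h2.nonempty
    refine h2.mono ?_
    intro k hk
    exact h3 k _ hk hk0

theorem init_tag (n : ℕ) (y : ℕ → ℕ) (L : ℕ) : init (tag n y) (L + 1) = n :: init y L := by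
  unfold init
  rw [List.range_succ_eq_map, List.map_cons, List.map_map]
  rfl

theorem maps_tag {φ : List ℕ → List ℕ} {x y : ℕ → ℕ} (h : Maps φ x y) (n : ℕ) :
    Maps (fun l => n :: φ l) x (tag n y) := by
  constructor
  · intro m
    show n :: φ (init x m) = init (tag n y) ((φ (init x m)).length + 1)
    rw [init_tag, ← h.1 m]
  · intro k
    obtain ⟨m, hm⟩ := h.2 k
    exact ⟨m, by show k ≤ (φ (init x m)).length + 1; omega⟩

end Pool.Agent.Y579.HN
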